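import Pool.Agent.H.MP_fdf3ca_an.B

set_option autoImplicit false
open Set Filter Topology Metric MeasureTheory Real

namespace Pool.Agent.H.MP_fdf3ca_an

theorem logmean {c : ℂ} {R : ℝ} {f : ℂ → ℂ} (hR : 0 < R) (hf : AnalyticOnNhd ℂ f (closedBall c R))
    (h0 : f c ≠ 0) : Real.log ‖f c‖ ≤ circleAverage (Real.log ‖f ·‖) c R := by
  have hf' : AnalyticOnNhd ℂ f (closedBall c |R|) := by rwa [abs_of_pos hR]
  rw [hf'.circleAverage_log_norm hR.ne' h0]
  refine le_add_of_nonneg_left (finsum_nonneg fun u => ?_)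
  by_cases hu : u ∈ closedBall c |R|
  · refine mul_nonneg (by exact_mod_cast MeromorphicOn.AnalyticOnNhd.divisor_nonneg hf' u) ?_
    rcases eq_or_ne c u with h | h
    · simp [h]
    · refine Real.log_nonneg ?_
      rw [← div_eq_mul_inv, one_le_div (norm_pos_iff.2 (sub_ne_zero.2 h))]
      rwa [abs_of_pos hR, mem_closedBall', dist_eq_norm] at hu
  · rw [Function.locallyFinsuppWithin.apply_eq_zero_of_notMem _ hu]
    simp

theorem circ {p : ℝ} (hp : 0 < p) {c : ℂ} {R : ℝ} {f : ℂ → ℂ} (hR : 0 < R)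
    (hf : AnalyticOnNhd ℂ f (closedBall c R)) :
    p / rexp 1 ^ p * ‖f c‖ ^ p ≤ circleAverage (‖f ·‖ ^ p) c R := by
  by_cases h0 : f c = 0
  · rw [h0, norm_zero, Real.zero_rpow hp.ne', mul_zero]
    exact circleAverage_nonneg_of_nonneg fun _ _ => by positivity
  have M0 : 0 < ‖f c‖ := norm_pos_iff.2 h0
  obtain ⟨t, ht⟩ : ∃ t : ℝ, t = rexp 1 / ‖f c‖ := ⟨_, rfl⟩
  have t0 : 0 < t := by rw [ht]; positivity
  have hg : AnalyticOnNhd ℂ (fun z => (t : ℂ) * f z) (closedBall c R) :=
    analyticOnNhd_const.mul hf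
  have ng : ∀ z, ‖(t : ℂ) * f z‖ = t * ‖f z‖ := fun z => by
    rw [norm_mul, Complex.norm_real, Real.norm_of_nonneg t0.le]
  have h1 := logmean hR hg (mul_ne_zero (by exact_mod_cast t0.ne') h0)
  rw [ng, ht, div_mul_cancel₀ _ M0.ne', Real.log_exp, ← ht] at h1
  have hs : sphere c |R| ⊆ closedBall c R := by
    rw [abs_of_pos hR]; exact sphere_subset_closedBall
  have ci : CircleIntegrable (‖f ·‖ ^ p) c R :=
    ContinuousOn.circleIntegrable' ((hf.continuousOn.mono hs).norm.rpow_const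
      fun _ _ => Or.inr hp.le)
  have h2 : circleAverage (fun z => Real.log ‖(t : ℂ) * f z‖) c R ≤
      circleAverage (fun z => (t ^ p / p) • ‖f z‖ ^ p) c R := by
    refine circleAverage_mono (hg.mono hs).meromorphicOn.circleIntegrable_log_norm
      (ci.const_smul (a := t ^ p / p)) fun z _ => ?_
    refine (Real.log_le_rpow_div (norm_nonneg _) hp).trans_eq ?_
    rw [ng, Real.mul_rpow t0.le (norm_nonneg _), smul_eq_mul]
    ring
  rw [circleAverage_fun_smul, smul_eq_mul] at h2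
  have h3 := h1.trans h2
  rw [ht, Real.div_rpow (by positivity) M0.le] at h3
  have a : 0 < rexp 1 ^ p := by positivity
  have b : 0 < ‖f c‖ ^ p := by positivity
  have := mul_le_mul_of_nonneg_left h3 (by positivity : 0 ≤ p / rexp 1 ^ p * ‖f c‖ ^ p)
  rw [mul_one] at this
  refine this.trans_eq ?_
  field_simp

theorem area {p : ℝ} (hp : 0 < p) {c : ℂ} {δ : ℝ} {f : ℂ → ℂ} (hδ : 0 < δ)
    (hf : AnalyticOnNhd ℂ f (closedBall c δ)) :
    ENNReal.ofReal (δ / 2 * (2 * π * (p / rexp 1 ^ p * ‖f c‖ ^ p) * (δ / 2))) ≤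
      ∫⁻ z in ball c δ, ENNReal.ofReal (‖f z‖ ^ p) := by
  have cm : ∀ q : ℝ × ℝ, c + Complex.polarCoord.symm q = circleMap c q.1 q.2 := fun q => by
    simp [circleMap, Complex.exp_mul_I]
  have mem : ∀ r ∈ Ioo (δ / 2) δ, ∀ θ, circleMap c r θ ∈ ball c δ := fun r hr θ => by
    rw [mem_ball, dist_eq_norm, circleMap_sub_center, norm_circleMap_zero,
      abs_of_pos ((half_pos hδ).trans hr.1)]
    exact hr.2
  rw [← lintegral_indicator measurableSet_ball, ← lintegral_add_left_eq_self _ c,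
    ← Complex.lintegral_comp_polarCoord_symm]
  simp only [cm]
  have sub : Ioo (δ / 2) δ ×ˢ Ioo (-π) π ⊆ polarCoord.target := fun q hq =>
    ⟨(half_pos hδ).trans hq.1.1, hq.2⟩
  have ms : MeasurableSet (Ioo (δ / 2) δ ×ˢ Ioo (-π) π) := measurableSet_Ioo.prod measurableSet_Ioo
  refine le_trans ?_ (lintegral_mono_set sub)
  refine le_trans ?_ (setLIntegral_mono' ms (f := fun q => ENNReal.ofReal (δ / 2) *
    ENNReal.ofReal (‖f (circleMap c q.1 q.2)‖ ^ p)) fun q hq => ?_)
  · rw [lintegral_const_mul' _ _ ENNReal.ofReal_ne_top, ENNReal.ofReal_mul (by positivity)]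
    refine mul_le_mul_right ?_ _
    have cont : ContinuousOn (fun q : ℝ × ℝ => ‖f (circleMap c q.1 q.2)‖ ^ p)
        (Ioo (δ / 2) δ ×ˢ Ioo (-π) π) :=
      ((hf.continuousOn.comp (by fun_prop) fun q hq =>
        ball_subset_closedBall (mem q.1 hq.1 q.2)).norm.rpow_const fun _ _ => Or.inr hp.le)
    rw [Measure.volume_eq_prod, setLIntegral_prod
      (fun q : ℝ × ℝ => ENNReal.ofReal (‖f (circleMap c q.1 q.2)‖ ^ p))
      (ENNReal.continuous_ofReal.comp_continuousOn cont |>.aemeasurable ms)]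
    refine le_trans ?_ (setLIntegral_mono' measurableSet_Ioo
      (f := fun _ => ENNReal.ofReal (2 * π * (p / rexp 1 ^ p * ‖f c‖ ^ p))) fun r hr => ?_)
    · rw [setLIntegral_const, Real.volume_Ioo, ← ENNReal.ofReal_mul (by positivity)]
      exact ENNReal.ofReal_le_ofReal (le_of_eq (by ring))
    · have r0 : 0 < r := (half_pos hδ).trans hr.1
      have h1 := circ hp r0 (hf.mono (closedBall_subset_closedBall hr.2.le))
      rw [circleAverage_eq_integral_add (-π),
        intervalIntegral.integral_comp_add_right (fun θ => ‖f (circleMap c r θ)‖ ^ p),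
        zero_add, show 2 * π + -π = π by ring, intervalIntegral.integral_of_le (by
          linarith [pi_pos]), integral_Ioc_eq_integral_Ioo, smul_eq_mul,
        le_inv_mul_iff₀ (by positivity)] at h1
      have c2 : Continuous fun θ => ‖f (circleMap c r θ)‖ ^ p :=
        ((hf.continuousOn.comp_continuous (continuous_circleMap c r) fun θ =>
          ball_subset_closedBall (mem r hr θ)).norm.rpow_const fun _ => Or.inr hp.le)
      rw [← ofReal_integral_eq_lintegral_ofReal
        (c2.integrableOn_Icc.mono_set Ioo_subset_Icc_self)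
        (Eventually.of_forall fun θ => by positivity)]
      exact ENNReal.ofReal_le_ofReal h1
  · rw [indicator_of_mem (mem q.1 hq.1 q.2), smul_eq_mul]
    exact mul_le_mul_left (ENNReal.ofReal_le_ofReal hq.1.1.le) _

theorem locu {p α : ℝ} (hp : 0 < p) (u : ℕ → ℂ → ℂ) (f : ℂ → ℂ)
    (hu : ∀ i, DifferentiableOn ℂ (u i) (ball 0 1)) (hf : DifferentiableOn ℂ f (ball 0 1))
    (h : Tendsto (fun i => ∫⁻ z in ball (0 : ℂ) 1,
      ENNReal.ofReal (‖u i z - f z‖ ^ p * (1 - ‖z‖) ^ α)) atTop (𝓝 0)) :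
    TendstoLocallyUniformlyOn u f atTop (ball 0 1) := by
  rw [tendstoLocallyUniformlyOn_iff_forall_isCompact isOpen_ball]
  intro K hK1 hK
  obtain ⟨δ, hδ, hδK⟩ := hK.exists_cthickening_subset_open isOpen_ball hK1
  obtain ⟨m, m0, hm⟩ : ∃ m : ℝ, 0 < m ∧ ∀ z ∈ cthickening δ K, m ≤ (1 - ‖z‖) ^ α := by
    have c1 : ContinuousOn (fun z : ℂ => (1 - ‖z‖) ^ α) (cthickening δ K) :=
      (continuousOn_const.sub continuous_norm.continuousOn).rpow_const fun z hz =>
        Or.inl (sub_pos.2 (by simpa using hδK hz)).ne'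
    obtain ⟨m, m0, hm⟩ := hK.cthickening.exists_forall_le' c1 (a := 0) fun z hz =>
      Real.rpow_pos_of_pos (sub_pos.2 (by simpa using hδK hz)) _
    exact ⟨m, m0, hm⟩
  rw [Metric.tendstoUniformlyOn_iff]
  intro ε hε
  have k0 : 0 < m * (δ / 2 * (2 * π * (p / rexp 1 ^ p * ε ^ p) * (δ / 2))) := by positivity
  filter_upwards [h.eventually (gt_mem_nhds (ENNReal.ofReal_pos.2 k0))] with i hi c hc
  have sb : closedBall c δ ⊆ cthickening δ K := closedBall_subset_cthickening hc δ
  have an : AnalyticOnNhd ℂ (fun z => u i z - f z) (closedBall c δ) :=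
    (((hu i).sub hf).analyticOnNhd isOpen_ball).mono (sb.trans hδK)
  by_contra hge
  rw [not_lt, dist_comm, dist_eq_norm] at hge
  refine hi.not_ge ?_
  refine le_trans ?_ (lintegral_mono_set (ball_subset_closedBall.trans (sb.trans hδK)))
  refine le_trans ?_ (setLIntegral_mono' measurableSet_ball (f := fun z => ENNReal.ofReal m *
    ENNReal.ofReal (‖u i z - f z‖ ^ p)) fun z hz => ?_)
  · rw [lintegral_const_mul' _ _ ENNReal.ofReal_ne_top, ENNReal.ofReal_mul m0.le]
    refine mul_le_mul_right (le_trans (ENNReal.ofReal_le_ofReal ?_) (area hp hδ an)) _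
    gcongr
  · rw [← ENNReal.ofReal_mul m0.le, mul_comm]
    exact ENNReal.ofReal_le_ofReal (mul_le_mul_of_nonneg_left
      (hm z (sb (ball_subset_closedBall hz))) (by positivity))

theorem fin {p α γ : ℝ} (hp : 0 < p) (h : -1 < -γ * p + α) (f : ℂ → ℂ)
    (hf : ∀ z ∈ ball (0 : ℂ) 1, ‖f z‖ ≤ 2 * (1 - ‖z‖) ^ (-γ)) :
    ∫⁻ z in ball (0 : ℂ) 1, ENNReal.ofReal (‖f z‖ ^ p * (1 - ‖z‖) ^ α) < ⊤ := by
  have i1 : IntegrableOn (fun z : ℂ => 2 ^ p * (1 - ‖z‖) ^ (-γ * p + α)) (ball 0 1) := by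
    refine Integrable.const_mul ?_ _
    refine (integrableOn_fun_norm_addHaar volume (f := fun y => (1 - y) ^ (-γ * p + α))).2 ?_
    have i2 : IntegrableOn (fun y : ℝ => (1 - y) ^ (-γ * p + α)) (Ioo 0 1) := by
      have := (intervalIntegral.intervalIntegrable_rpow' (a := 1) (b := 0) h).comp_sub_left 1
      simp only [sub_self, sub_zero] at this
      exact (intervalIntegrable_iff_integrableOn_Ioo_of_le zero_le_one).1 this
    refine Integrable.mono i2 ?_ ((ae_restrict_iff' measurableSet_Ioo).2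
      (Eventually.of_forall fun y hy => ?_))
    · exact ((measurable_id.pow_const _).aestronglyMeasurable).smul i2.aestronglyMeasurable
    · rw [norm_smul]
      refine mul_le_of_le_one_left (norm_nonneg _) ?_
      rw [norm_pow, Real.norm_of_nonneg hy.1.le]
      exact pow_le_one₀ hy.1.le hy.2.le
  refine lt_of_le_of_lt (setLIntegral_mono' measurableSet_ball fun z hz =>
    ENNReal.ofReal_le_ofReal ?_) i1.lintegral_lt_top
  have d0 : 0 < 1 - ‖z‖ := sub_pos.2 (by simpa using hz)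
  rw [Real.rpow_add d0, ← mul_assoc, Real.rpow_mul d0.le, ← Real.mul_rpow (by norm_num)
    (by positivity)]
  exact mul_le_mul_of_nonneg_right (Real.rpow_le_rpow (norm_nonneg _) (hf z hz) hp.le)
    (by positivity)

end Pool.Agent.H.MP_fdf3ca_an
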