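import Mathlib

set_option autoImplicit false
open Set Filter Topology Metric

namespace Pool.Agent.H.MP_fdf3ca_an

theorem dom (t : ℕ → ℂ) (S : ℂ) (h : HasSum t S) (n : ℕ) (w : ℝ) (hw : 0 ≤ w)
    (h1 : ∀ k < n, ‖t k‖ ≤ w * 16 ^ k) (h2 : ‖t n‖ = w * 16 ^ n / 2)
    (h3 : ∀ j, ‖t (j + (n + 1))‖ ≤ w * 16 ^ n * (1 / 16) ^ (j + 1)) : w / 3 ≤ ‖S‖ := by
  have g1 : HasSum (fun j : ℕ => w * 16 ^ n * ((1 : ℝ) / 16) ^ (j + 1)) (w * 16 ^ n * (1 / 15)) := by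
    have := (hasSum_geometric_of_lt_one (r := 1 / 16) (by norm_num) (by norm_num)).mul_right
      (1 / 16)
    simp only [← pow_succ] at this
    refine HasSum.mul_left _ ?_
    convert this using 1
    norm_num
  have g2 := (hasSum_nat_add_iff' (n + 1)).2 h
  have g3 := HasSum.norm_le_of_bounded g2 g1 h3
  have g4 : ‖∑ k ∈ Finset.range n, t k‖ ≤ w * 16 ^ n / 15 := by
    refine (norm_sum_le _ _).trans ((Finset.sum_le_sum fun k hk =>
      h1 k (Finset.mem_range.1 hk)).trans ?_)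
    rw [← Finset.mul_sum, geom_sum_eq (by norm_num), mul_div_assoc]
    refine mul_le_mul_of_nonneg_left ?_ hw
    norm_num
    linarith
  rw [Finset.sum_range_succ] at g3
  have g5 : ‖t n‖ ≤ ‖S‖ + ‖S - (∑ k ∈ Finset.range n, t k + t n)‖ +
      ‖∑ k ∈ Finset.range n, t k‖ := by
    have e : t n = S - (S - (∑ k ∈ Finset.range n, t k + t n)) - ∑ k ∈ Finset.range n, t k := by
      ring
    calc ‖t n‖ = _ := congrArg norm e
      _ ≤ _ := (norm_sub_le _ _).trans (add_le_add_left (norm_sub_le _ _) _)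
  have g6 : w ≤ w * 16 ^ n := le_mul_of_one_le_right hw (one_le_pow₀ (by norm_num))
  linarith

theorem argmax (w : ℕ → ℝ) (h : Tendsto w atTop (𝓝 0)) (k0 : ℕ) (h0 : 0 < w k0) :
    ∃ n, ∀ k, w k ≤ w n := by
  obtain ⟨N, hN⟩ := eventually_atTop.1 (h.eventually (gt_mem_nhds h0))
  obtain ⟨n, -, hn⟩ := (Finset.range (N + k0 + 1)).exists_max_image w ⟨0, by simp⟩
  refine ⟨n, fun k => ?_⟩
  by_cases hk : k < N + k0 + 1
  · exact hn k (Finset.mem_range.2 hk)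
  · exact (hN k (by omega)).le.trans (hn k0 (Finset.mem_range.2 (by omega)))

theorem eight {Q : ℕ} (hQ : 8 ≤ Q) (j : ℕ) : 8 * (j + 1) ≤ Q ^ (j + 1) := by
  refine le_trans ?_ (Nat.pow_le_pow_left hQ _)
  rw [pow_succ']
  exact Nat.mul_le_mul_left _ (Nat.lt_pow_self (by norm_num))

theorem annular {Q : ℕ} (hQ : 8 ≤ Q) (b : ℕ → ℂ) (f : ℂ → ℂ)
    (hs : ∀ z ∈ ball (0 : ℂ) 1, HasSum (fun k => b k * z ^ (Q ^ k)) (f z))
    (hb : ∀ B : ℝ, ∃ k, B * 16 ^ k < ‖b k‖) (R : ℝ) :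
    ∃ᶠ r in 𝓝[<] (1 : ℝ), ∀ z : ℂ, ‖z‖ = r → R ≤ ‖f z‖ := by
  rw [(nhdsLT_basis_of_exists_lt ⟨0, one_pos⟩).frequently_iff]
  intro ρ0 hρ0
  obtain ⟨ρ, hρ0', hρ1, hρ⟩ : ∃ ρ : ℝ, 0 < ρ ∧ ρ < 1 ∧ ρ0 < ρ * ρ := by
    refine ⟨(1 + max ρ0 0) / 2, by positivity, ?_, ?_⟩
    · have : max ρ0 0 < 1 := max_lt hρ0 one_pos
      linarith
    · have h1 : max ρ0 0 < 1 := max_lt hρ0 one_pos
      have h2 := le_max_left ρ0 0
      nlinarith [sq_pos_of_pos (sub_pos.2 h1)]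
  obtain ⟨N, hN⟩ : ∃ N : ℕ, ρ ^ N < 1 / 2 := exists_pow_lt_of_lt_one (by norm_num) hρ1
  obtain ⟨B, hB0, hBR, hBN⟩ : ∃ B : ℝ, 0 ≤ B ∧ 3 * R ≤ B ∧ ∀ k < N, ‖b k‖ ≤ B :=
    ⟨|3 * R| + ∑ k ∈ Finset.range N, ‖b k‖, by positivity,
      (le_abs_self _).trans (le_add_of_nonneg_right (by positivity)), fun k hk =>
      (Finset.single_le_sum (f := fun k => ‖b k‖) (fun _ _ => norm_nonneg _)
        (Finset.mem_range.2 hk)).trans (le_add_of_nonneg_left (abs_nonneg _))⟩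
  obtain ⟨k0, hk0⟩ := hb (2 * B)
  obtain ⟨s, hs2, hs1⟩ : ∃ s : ℝ, 1 / 2 < s ^ (Q ^ k0) ∧ s ∈ Ioo ρ 1 := by
    have h1 : ∀ᶠ s in 𝓝[<] (1 : ℝ), 1 / 2 < s ^ (Q ^ k0) :=
      nhdsWithin_le_nhds (((continuous_pow (Q ^ k0)).tendsto 1).eventually
        (lt_mem_nhds (by norm_num)))
    exact (h1.and (Ioo_mem_nhdsLT hρ1)).exists
  have s0 : 0 < s := hρ0'.trans hs1.1
  obtain ⟨w, hw⟩ : ∃ w : ℕ → ℝ, w = fun k => ‖b k‖ * s ^ (Q ^ k) / 16 ^ k := ⟨_, rfl⟩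
  have w0 : ∀ k, 0 ≤ w k := fun k => by rw [hw]; positivity
  have wt : Tendsto w atTop (𝓝 0) := by
    have h1 := (hs s (by simpa [abs_of_pos s0] using hs1.2)).summable.tendsto_atTop_zero.norm
    rw [norm_zero] at h1
    refine squeeze_zero w0 (fun k => ?_) h1
    rw [hw, norm_mul, norm_pow, Complex.norm_real, Real.norm_of_nonneg s0.le]
    exact div_le_self (by positivity) (one_le_pow₀ (by norm_num))
  have wk : B < w k0 := by
    rw [hw, lt_div_iff₀ (by positivity)]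
    have : 0 ≤ B * 16 ^ k0 := by positivity
    nlinarith
  obtain ⟨n, hn⟩ := argmax w wt k0 (hB0.trans_lt wk)
  have wn : B < w n := wk.trans_le (hn k0)
  have nN : N ≤ n := by
    by_contra hlt
    have h1 := hBN n (not_le.1 hlt)
    have h2 : w n ≤ ‖b n‖ := by
      rw [hw]
      exact (div_le_self (by positivity) (one_le_pow₀ (by norm_num))).trans
        (mul_le_of_le_one_right (norm_nonneg _) (pow_le_one₀ s0.le hs1.2.le))
    linarith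
  have Qn : Q ^ n ≠ 0 := pow_ne_zero _ (by omega)
  obtain ⟨σ, σ0, hσ⟩ : ∃ σ : ℝ, 0 ≤ σ ∧ σ ^ (Q ^ n) = 1 / 2 :=
    ⟨(1 / 2) ^ (((Q ^ n : ℕ) : ℝ)⁻¹), by positivity, Real.rpow_inv_natCast_pow (by norm_num) Qn⟩
  have σ1 : σ ≤ 1 := by
    by_contra hlt
    have := one_le_pow₀ (n := Q ^ n) (not_le.1 hlt).le
    linarith
  have ρσ : ρ < σ := by
    refine lt_of_pow_lt_pow_left₀ (Q ^ n) σ0 ?_
    rw [hσ]
    refine lt_of_le_of_lt (pow_le_pow_of_le_one hρ0'.le hρ1.le ?_) hN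
    exact nN.trans (Nat.lt_pow_self (by omega)).le
  have r1 : s * σ < 1 := (mul_le_of_le_one_right s0.le σ1).trans_lt hs1.2
  refine ⟨s * σ, ⟨hρ.trans (mul_lt_mul'' hs1.1 ρσ hρ0'.le hρ0'.le), r1⟩, fun z hz => ?_⟩
  have e : ∀ k, ‖b k * z ^ (Q ^ k)‖ = w k * 16 ^ k * σ ^ (Q ^ k) := fun k => by
    rw [hw, norm_mul, norm_pow, hz, mul_pow]
    field_simp
  have := dom _ _ (hs z (by simpa [hz] using r1)) n (w n) (w0 n) (fun k _ => ?_) ?_ fun j => ?_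
  · linarith
  · rw [e]
    exact (mul_le_of_le_one_right (mul_nonneg (w0 k) (by positivity)) (pow_le_one₀ σ0 σ1)).trans
      (mul_le_mul_of_nonneg_right (hn k) (by positivity))
  · rw [e, hσ]
    ring
  · have e2 : σ ^ (Q ^ (j + (n + 1))) = (1 / 2) ^ (Q ^ (j + 1)) := by
      rw [← hσ, ← pow_mul, ← pow_add]
      congr 2
      omega
    have e3 : ((1 : ℝ) / 2) ^ (Q ^ (j + 1)) ≤ (1 / 16) ^ (j + 1) * (1 / 16) ^ (j + 1) := by
      refine (pow_le_pow_of_le_one (by norm_num) (by norm_num) (eight hQ j)).trans_eq ?_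
      rw [pow_mul, ← mul_pow]
      norm_num
    have e4 : (16 : ℝ) ^ (j + (n + 1)) * ((1 / 16) ^ (j + 1) * (1 / 16) ^ (j + 1)) =
        16 ^ n * (1 / 16) ^ (j + 1) := by
      rw [show j + (n + 1) = n + (j + 1) by omega, pow_add, mul_assoc, ← mul_assoc (16 ^ (j + 1)),
        ← mul_pow]
      norm_num
    rw [e, e2, mul_assoc, mul_assoc, ← e4]
    exact mul_le_mul (hn _) (mul_le_mul_of_nonneg_left e3 (by positivity)) (by positivity) (w0 n)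

end Pool.Agent.H.MP_fdf3ca_an
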