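import Pool.Agent.H.MP_fdf3ca_an.A

set_option autoImplicit false
open Set Filter Topology Metric

namespace Pool.Agent.H.MP_fdf3ca_an

noncomputable def tc (n : ℕ) (f : ℂ → ℂ) : ℂ := (n.factorial : ℂ)⁻¹ * iteratedDeriv n f 0

theorem cd {f : ℂ → ℂ} (hf : DifferentiableOn ℂ f (ball 0 1)) (n : ℕ) : ContDiffAt ℂ n f 0 :=
  (hf.analyticAt (ball_mem_nhds _ one_pos)).contDiffAt

noncomputable def V (Q : ℕ) : Submodule ℂ (ℂ → ℂ) where
  carrier := {f | DifferentiableOn ℂ f (ball 0 1) ∧ (∀ z ∉ ball (0 : ℂ) 1, f z = 0) ∧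
    (∀ n ∉ range (fun k : ℕ => Q ^ k), tc n f = 0) ∧
    ∀ k l : ℕ, k.unpair.1 = l.unpair.1 → 32 ^ l * tc (Q ^ k) f = 32 ^ k * tc (Q ^ l) f}
  add_mem' := by
    rintro f g ⟨f1, f2, f3, f4⟩ ⟨g1, g2, g3, g4⟩
    have e : ∀ n, tc n (f + g) = tc n f + tc n g := fun n => by
      rw [tc, iteratedDeriv_add (cd f1 n) (cd g1 n), mul_add, tc, tc]
    refine ⟨f1.add g1, fun z hz => by simp [f2 z hz, g2 z hz], fun n hn => ?_, fun k l h => ?_⟩
    · rw [e, f3 n hn, g3 n hn, add_zero]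
    · rw [e, e, mul_add, mul_add, f4 k l h, g4 k l h]
  zero_mem' := ⟨differentiableOn_const 0, fun _ _ => rfl, fun n _ => by simp [tc],
    fun k l _ => by simp [tc]⟩
  smul_mem' := by
    rintro c f ⟨f1, f2, f3, f4⟩
    have e : ∀ n, tc n (c • f) = c * tc n f := fun n => by
      rw [tc, iteratedDeriv_const_smul (cd f1 n), tc, smul_eq_mul]
      ring
    refine ⟨f1.const_smul c, fun z hz => by simp [f2 z hz], fun n hn => ?_, fun k l h => ?_⟩
    · rw [e, f3 n hn, mul_zero]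
    · rw [e, e, mul_left_comm, f4 k l h, mul_left_comm]

theorem V_closed (Q : ℕ) (u : ℕ → ℂ → ℂ) (f : ℂ → ℂ) (hu : ∀ i, u i ∈ V Q)
    (hf : DifferentiableOn ℂ f (ball 0 1)) (h0 : ∀ z ∉ ball (0 : ℂ) 1, f z = 0)
    (h : TendstoLocallyUniformlyOn u f atTop (ball 0 1)) : f ∈ V Q := by
  have it : ∀ n, TendstoLocallyUniformlyOn (fun i => iteratedDeriv n (u i)) (iteratedDeriv n f)
      atTop (ball 0 1) := fun n => by
    induction n with
    | zero => simpa using h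
    | succ n ih =>
      simp only [iteratedDeriv_succ]
      refine ih.deriv (Eventually.of_forall fun i => ?_) isOpen_ball
      rw [iteratedDeriv_eq_iterate]
      exact (((hu i).1.analyticOnNhd isOpen_ball).iterated_deriv n).differentiableOn
  have t : ∀ n, Tendsto (fun i => tc n (u i)) atTop (𝓝 (tc n f)) := fun n =>
    ((it n).tendsto_at (mem_ball_self one_pos)).const_mul _
  refine ⟨hf, h0, fun n hn => ?_, fun k l hkl => ?_⟩
  · refine tendsto_nhds_unique (t n) ?_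
    simp only [fun i => (hu i).2.2.1 n hn, tendsto_const_nhds]
  · refine tendsto_nhds_unique ((t (Q ^ k)).const_mul (32 ^ l)) ?_
    simp only [fun i => (hu i).2.2.2 k l hkl]
    exact (t _).const_mul _

theorem V_annular {Q : ℕ} (hQ : 8 ≤ Q) {f : ℂ → ℂ} (hf : f ∈ V Q) (h0 : f ≠ 0) (R : ℝ) :
    ∃ᶠ r in 𝓝[<] (1 : ℝ), ∀ z : ℂ, ‖z‖ = r → R ≤ ‖f z‖ := by
  have hs : ∀ z ∈ ball (0 : ℂ) 1, HasSum (fun k => tc (Q ^ k) f * z ^ (Q ^ k)) (f z) := by
    intro z hz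
    have h1 : HasSum (fun n => tc n f * z ^ n) (f z) := by
      refine (Complex.hasSum_taylorSeries_on_ball hf.1 hz).congr_fun fun n => ?_
      simp only [tc, smul_eq_mul, sub_zero]
      ring
    exact ((Nat.pow_right_injective (by omega : 2 ≤ Q)).hasSum_iff
      (f := fun n => tc n f * z ^ n) fun n hn => by
      rw [hf.2.2.1 n hn, zero_mul]).2 h1
  refine annular hQ _ f hs (fun B => ?_) R
  obtain ⟨l, hl⟩ : ∃ l, tc (Q ^ l) f ≠ 0 := by
    by_contra hc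
    push Not at hc
    refine h0 (funext fun z => ?_)
    by_cases hz : z ∈ ball (0 : ℂ) 1
    · exact (hs z hz).unique (by simp [hc, hasSum_zero])
    · exact hf.2.1 z hz
  have c0 : 0 < ‖tc (Q ^ l) f‖ := norm_pos_iff.2 hl
  obtain ⟨i, hi⟩ := pow_unbounded_of_one_lt (B * 32 ^ l / ‖tc (Q ^ l) f‖) (one_lt_two (α := ℝ))
  obtain ⟨k, hk, hik⟩ : ∃ k : ℕ, k.unpair.1 = l.unpair.1 ∧ i ≤ k :=
    ⟨Nat.pair l.unpair.1 i, by simp, Nat.right_le_pair _ _⟩
  refine ⟨k, ?_⟩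
  have e := congrArg norm (hf.2.2.2 k l hk)
  rw [norm_mul, norm_mul, norm_pow, norm_pow, Complex.norm_ofNat] at e
  rw [div_lt_iff₀ c0] at hi
  have h2 : (2 : ℝ) ^ i ≤ 2 ^ k := pow_le_pow_right₀ one_le_two hik
  have h3 : (32 : ℝ) ^ k = 16 ^ k * 2 ^ k := by rw [← mul_pow]; norm_num
  refine lt_of_mul_lt_mul_left ?_ (by positivity : (0 : ℝ) ≤ 32 ^ l)
  rw [e, h3]
  have h4 : B * 32 ^ l < 2 ^ k * ‖tc (Q ^ l) f‖ :=
    hi.trans_le (mul_le_mul_of_nonneg_right h2 c0.le)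
  have h5 : (0 : ℝ) < 16 ^ k := by positivity
  nlinarith

theorem est {Q : ℕ} {γ r : ℝ} (h0 : 0 < γ) (h1 : γ ≤ 1) (hQ : 64 ≤ (Q : ℝ) ^ γ) (r0 : 0 ≤ r)
    (r1 : r < 1) (k : ℕ) : 32 ^ k * r ^ (Q ^ k) ≤ (1 / 2) ^ k * (1 - r) ^ (-γ) := by
  have d0 : 0 < 1 - r := sub_pos.2 r1
  obtain ⟨m, hm⟩ : ∃ m : ℕ, m = Q ^ k := ⟨_, rfl⟩
  have a1 : (64 : ℝ) ^ k ≤ (m : ℝ) ^ γ := by
    rw [hm, Nat.cast_pow, ← Real.rpow_pow_comm (Nat.cast_nonneg Q)]
    exact pow_le_pow_left₀ (by norm_num) hQ k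
  have a2 : r ^ m * (1 + m * (1 - r)) ≤ 1 := by
    have := one_add_mul_le_pow (a := 1 - r) (by linarith) m
    calc r ^ m * (1 + m * (1 - r)) ≤ r ^ m * (1 + (1 - r)) ^ m :=
          mul_le_mul_of_nonneg_left this (by positivity)
      _ = (r * (1 + (1 - r))) ^ m := by rw [mul_pow]
      _ ≤ 1 := pow_le_one₀ (by positivity) (by nlinarith)
  have a3 : (m * (1 - r)) ^ γ ≤ 1 + m * (1 - r) := by
    have x0 : (0 : ℝ) ≤ m * (1 - r) := by positivity
    rcases le_total (m * (1 - r)) 1 with h | h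
    · exact (Real.rpow_le_one x0 h h0.le).trans (by linarith)
    · refine (Real.rpow_le_rpow_of_exponent_le h h1).trans ?_
      rw [Real.rpow_one]
      linarith
  rw [Real.mul_rpow (by positivity) d0.le] at a3
  have a4 : 0 < (1 - r) ^ γ := Real.rpow_pos_of_pos d0 γ
  rw [← hm, Real.rpow_neg d0.le, ← div_eq_mul_inv, le_div_iff₀ a4]
  have a5 : r ^ m * (64 ^ k * (1 - r) ^ γ) ≤ 1 :=
    (mul_le_mul_of_nonneg_left ((mul_le_mul_of_nonneg_right a1 a4.le).trans a3)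
      (by positivity)).trans a2
  have a6 : (32 : ℝ) ^ k = (1 / 2) ^ k * 64 ^ k := by rw [← mul_pow]; norm_num
  calc 32 ^ k * r ^ m * (1 - r) ^ γ = (1 / 2) ^ k * (r ^ m * (64 ^ k * (1 - r) ^ γ)) := by
        rw [a6]; ring
    _ ≤ (1 / 2) ^ k := mul_le_of_le_one_right (by positivity) a5

theorem gen {Q : ℕ} {γ : ℝ} (h0 : 0 < γ) (h1 : γ ≤ 1) (hQ : 64 ≤ (Q : ℝ) ^ γ) (hQ2 : 2 ≤ Q)
    (g : ℕ → ℂ) (hg : ∀ j, ‖g j‖ ≤ 1) : ∃ f ∈ V Q, (∀ k, tc (Q ^ k) f = g k.unpair.1 * 32 ^ k) ∧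
      ∀ z ∈ ball (0 : ℂ) 1, ‖f z‖ ≤ 2 * (1 - ‖z‖) ^ (-γ) := by
  have inj : Function.Injective (fun k : ℕ => Q ^ k) := Nat.pow_right_injective hQ2
  obtain ⟨a, a1, a2⟩ : ∃ a : ℕ → ℂ, (∀ k, a (Q ^ k) = g k.unpair.1 * 32 ^ k) ∧
      ∀ n ∉ range (fun k : ℕ => Q ^ k), a n = 0 :=
    ⟨Function.extend (fun k : ℕ => Q ^ k) (fun k => g k.unpair.1 * 32 ^ k) 0,
      fun k => inj.extend_apply _ _ k, fun n hn => Function.extend_apply' _ _ _ hn⟩
  have bd : ∀ r : ℝ, 0 ≤ r → r < 1 → ∀ k, ‖a (Q ^ k)‖ * r ^ (Q ^ k) ≤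
      (1 / 2) ^ k * (1 - r) ^ (-γ) := fun r r0 r1 k => by
    refine le_trans (mul_le_mul_of_nonneg_right ?_ (by positivity)) (est h0 h1 hQ r0 r1 k)
    rw [a1, norm_mul, norm_pow, Complex.norm_ofNat]
    exact mul_le_of_le_one_left (by positivity) (hg _)
  obtain ⟨p, hp⟩ : ∃ p, p = FormalMultilinearSeries.ofScalars ℂ a := ⟨_, rfl⟩
  have rad : 1 ≤ p.radius := by
    refine ENNReal.le_of_forall_nnreal_lt fun r hr => p.le_radius_of_summable ?_
    have r1 : (r : ℝ) < 1 := by exact_mod_cast hr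
    simp only [hp, FormalMultilinearSeries.ofScalars_norm]
    refine (inj.summable_iff fun n hn => by rw [a2 n hn, norm_zero, zero_mul]).1 ?_
    exact Summable.of_nonneg_of_le (fun k => by simp only [Function.comp]; positivity)
      (bd r r.2 r1) (summable_geometric_two.mul_right _)
  have hb := (p.hasFPowerSeriesOnBall (lt_of_lt_of_le one_pos rad)).mono one_pos rad
  have eb : eball (0 : ℂ) 1 = ball 0 1 := by simpa using eball_coe (x := (0 : ℂ)) (ε := 1)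
  have hb' : HasFPowerSeriesOnBall ((ball (0 : ℂ) 1).indicator p.sum) p 0 1 :=
    hb.congr fun z hz => (indicator_of_mem (by rwa [← eb]) _).symm
  have t : ∀ n, tc n ((ball (0 : ℂ) 1).indicator p.sum) = a n := fun n => by
    rw [tc, iteratedDeriv_eq_iteratedFDeriv, ← hb'.factorial_smul 1 n, hp,
      FormalMultilinearSeries.ofScalars_apply_eq]
    have : (n.factorial : ℂ) ≠ 0 := by exact_mod_cast n.factorial_ne_zero
    simp [this]
  refine ⟨(ball (0 : ℂ) 1).indicator p.sum, ⟨hb'.differentiableOn.mono eb.ge, fun z hz => indicator_of_notMem hz _,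
    fun n hn => by rw [t, a2 n hn], fun k l h => ?_⟩, fun k => by rw [t, a1], fun z hz => ?_⟩
  · rw [t, t, a1, a1, h]
    ring
  · have s1 := hb'.hasSum (y := z) (by rwa [eb])
    simp only [hp, FormalMultilinearSeries.ofScalars_apply_eq, zero_add, smul_eq_mul] at s1
    have s2 := (inj.hasSum_iff fun n hn => by rw [a2 n hn, zero_mul]).2 s1
    rw [hp]
    refine HasSum.norm_le_of_bounded s2 (hasSum_geometric_two.mul_right _) fun k => ?_
    simp only [Function.comp, norm_mul, norm_pow]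
    exact bd _ (norm_nonneg z) (by simpa using hz) k

theorem indep {Q : ℕ} (W : Submodule ℂ (ℂ → ℂ)) (f : ℕ → ℂ → ℂ) (hW : ∀ j, f j ∈ W)
    (hV : ∀ j, f j ∈ V Q)
    (hf : ∀ j k, tc (Q ^ k) (f j) = (Pi.single j 1 : ℕ → ℂ) k.unpair.1 * 32 ^ k) :
    ¬ Module.Finite ℂ W := by
  intro hfin
  let T : ℕ → V Q →ₗ[ℂ] ℂ := fun n =>
    { toFun := fun f => tc n f
      map_add' := fun f g => by
        rw [Submodule.coe_add, tc, iteratedDeriv_add (cd f.2.1 n) (cd g.2.1 n), mul_add, tc, tc]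
      map_smul' := fun c f => by
        rw [Submodule.coe_smul, tc, iteratedDeriv_const_smul (cd f.2.1 n), tc, smul_eq_mul,
          RingHom.id_apply, smul_eq_mul]
        ring }
  refine Module.Finite.not_linearIndependent_of_infinite (R := ℂ)
    (fun j => (⟨f j, hW j⟩ : W)) (linearIndependent_iff'.2 fun s c hc i hi => ?_)
  have e : ∑ j ∈ s, c j • (⟨f j, hV j⟩ : V Q) = 0 := Subtype.ext (by
    simpa using congrArg Subtype.val hc)
  have e2 := congrArg (T (Q ^ Nat.pair i 0)) e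
  rw [map_sum, map_zero, Finset.sum_eq_single_of_mem i hi] at e2
  · have : T (Q ^ Nat.pair i 0) (c i • ⟨f i, hV i⟩) = c i * 32 ^ Nat.pair i 0 := by
      rw [map_smul]
      change c i * tc _ (f i) = _
      simp [hf]
    rw [this] at e2
    simpa using e2
  · intro j _ hj
    rw [map_smul]
    change c j * tc _ (f j) = _
    simp [hf, hj.symm]

end Pool.Agent.H.MP_fdf3ca_an
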